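import Pool.Agent.Helper99.SZ.Stmts

set_option autoImplicit false

namespace Pool.Helper99.SZ

open NumberField

/-- the numerical contradiction -/
lemma pnp_num (D v r K N t : ℕ) (U l lp : ℝ) (hv : 1 ≤ v) (hU : 1 ≤ U) (hl : 1 ≤ l)
    (hr : ((4000 * (D + 1) * (v + 1) : ℕ) : ℝ) * l ≤ r)
    (hK : ((4000 * (D + 1) * (v + 1) : ℕ) : ℝ) * U * (r : ℝ) ^ v ≤ K)
    (hN : N = K ^ v * (4 * r ^ v)) (ht : t = N * (K * r) / 8) (hlp : 1 / 2 ≤ lp)
    (h : (t : ℝ) * lp ≤ D * ((N : ℝ) * ((4 * (r : ℝ) ^ v) * U + Real.log N +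
      (v * (K * l) + (4 * (r : ℝ) ^ v) * U)))) : False := by
  push_cast at hr hK
  have hD0 : (0 : ℝ) ≤ D := Nat.cast_nonneg D
  have hv1 : (1 : ℝ) ≤ v := by exact_mod_cast hv
  obtain ⟨c, hc⟩ : ∃ c : ℝ, c = 4000 * ((D : ℝ) + 1) * ((v : ℝ) + 1) := ⟨_, rfl⟩
  rw [← hc] at hr hK
  have hDv : 0 ≤ (D : ℝ) * v := mul_nonneg hD0 (by linarith)
  have hc1 : 4000 * (D * v) + 8000 ≤ c := by rw [hc]; nlinarith
  have hc2 : 4000 * (D : ℝ) ≤ c := by rw [hc]; nlinarith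
  have hc0 : 0 < c := by linarith
  have hrc : c ≤ r := by nlinarith
  have hr1 : (1 : ℝ) ≤ r := by linarith
  have hr0 : (0 : ℝ) < r := by linarith
  have hrv : (r : ℝ) ≤ (r : ℝ) ^ v := le_self_pow₀ hr1 (by omega)
  have hrv0 : (0 : ℝ) ≤ (r : ℝ) ^ v := by positivity
  have hUr : (r : ℝ) ^ v ≤ U * (r : ℝ) ^ v := le_mul_of_one_le_left hrv0 hU
  have hUr0 : 0 ≤ U * (r : ℝ) ^ v := by linarith
  have hKc : c * r ≤ K := by
    have h1 : c * r ≤ c * (U * (r : ℝ) ^ v) := mul_le_mul_of_nonneg_left (hrv.trans hUr) hc0.le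
    linarith
  have hKr : (r : ℝ) ≤ K := by nlinarith
  have hK1 : (1 : ℝ) ≤ K := by linarith
  have hK0 : (0 : ℝ) < K := by linarith
  have hrN : 1 ≤ r := by exact_mod_cast hr1
  have hKN : 1 ≤ K := by exact_mod_cast hK1
  have hN1 : 1 ≤ N := by
    rw [hN]
    have h1 : 0 < K ^ v := Nat.pow_pos hKN
    have h2 : 0 < r ^ v := Nat.pow_pos hrN
    exact Nat.mul_pos h1 (by omega)
  have hN1' : (1 : ℝ) ≤ N := by exact_mod_cast hN1
  have hN0 : (0 : ℝ) < N := by linarith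
  -- the lower bound for `t`
  have hKr0 : 0 ≤ (K : ℝ) * r := by positivity
  have hKr16 : 16 ≤ (K : ℝ) * r := by nlinarith
  have ht1 : (N : ℝ) * (K * r) < 8 * (t + 1) := by
    have h1 : N * (K * r) < 8 * (t + 1) := by
      rw [ht]
      have := Nat.lt_mul_div_succ (N * (K * r)) (by norm_num : 0 < 8)
      exact this
    exact_mod_cast h1
  have hNKr : (K : ℝ) * r ≤ N * (K * r) := le_mul_of_one_le_left hKr0 hN1'
  have ht2 : (N : ℝ) * (K * r) ≤ 16 * t := by linarith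
  have ht0 : (0 : ℝ) ≤ t := Nat.cast_nonneg t
  have ht3 : (t : ℝ) * (1 / 2) ≤ t * lp := mul_le_mul_of_nonneg_left hlp ht0
  have hmain : (N : ℝ) * (K * r) ≤ N * (32 * (D * ((4 * (r : ℝ) ^ v) * U + Real.log N +
      (v * (K * l) + (4 * (r : ℝ) ^ v) * U)))) := by
    have h1 : (N : ℝ) * (32 * (D * ((4 * (r : ℝ) ^ v) * U + Real.log N +
      (v * (K * l) + (4 * (r : ℝ) ^ v) * U)))) = 32 * (D * ((N : ℝ) * ((4 * (r : ℝ) ^ v) * U +
      Real.log N + (v * (K * l) + (4 * (r : ℝ) ^ v) * U)))) := by ring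
    rw [h1]
    linarith
  have hmain2 := le_of_mul_le_mul_left hmain hN0
  -- log N
  have hlogN : Real.log N ≤ 4 * (v * K) := by
    have h1 : Real.log N = v * Real.log K + (Real.log 4 + v * Real.log r) := by
      rw [hN]
      push_cast
      rw [Real.log_mul (by positivity) (by positivity), Real.log_mul (by norm_num) (by positivity),
        Real.log_pow, Real.log_pow]
    have h2 : Real.log K ≤ K := (Real.log_le_sub_one_of_pos hK0).trans (by linarith)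
    have h3 : Real.log r ≤ K := ((Real.log_le_sub_one_of_pos hr0).trans (by linarith)).trans hKr
    have h4 : Real.log 4 ≤ 3 := (Real.log_le_sub_one_of_pos (by norm_num)).trans (by norm_num)
    have h5 : (v : ℝ) * Real.log K ≤ v * K := mul_le_mul_of_nonneg_left h2 (by linarith)
    have h6 : (v : ℝ) * Real.log r ≤ v * K := mul_le_mul_of_nonneg_left h3 (by linarith)
    have h7 : 3 ≤ (v : ℝ) * K := by nlinarith
    rw [h1]
    linarith
  -- the three terms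
  have hA : 256 * (D : ℝ) * (U * (r : ℝ) ^ v) ≤ K := by
    have h1 : 256 * (D : ℝ) * (U * (r : ℝ) ^ v) ≤ c * (U * (r : ℝ) ^ v) :=
      mul_le_mul_of_nonneg_right (by linarith) hUr0
    linarith
  have hA2 : (K : ℝ) * 4 ≤ K * r := mul_le_mul_of_nonneg_left (by linarith) hK0.le
  have hB : 128 * (D * v) * l ≤ r := by
    have h1 : 128 * (D * v) * l ≤ c * l := mul_le_mul_of_nonneg_right (by linarith) (by linarith)
    linarith
  have hB2 : (K : ℝ) * (128 * (D * v) * l) ≤ K * r := mul_le_mul_of_nonneg_left hB hK0.le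
  have hC : 512 * ((D : ℝ) * v) ≤ r := by linarith
  have hC2 : (K : ℝ) * (512 * ((D : ℝ) * v)) ≤ K * r := mul_le_mul_of_nonneg_left hC hK0.le
  have hC3 : (D : ℝ) * Real.log N ≤ D * (4 * (v * K)) := mul_le_mul_of_nonneg_left hlogN hD0
  have hfin : 32 * ((D : ℝ) * ((4 * (r : ℝ) ^ v) * U + Real.log N +
      (v * (K * l) + (4 * (r : ℝ) ^ v) * U))) = 256 * (D : ℝ) * (U * (r : ℝ) ^ v) +
      32 * (D * Real.log N) + (1 / 4) * (K * (128 * (D * v) * l)) := by ring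
  rw [hfin] at hmain2
  have h512 : 32 * ((D : ℝ) * (4 * (v * K))) = (1 / 4) * (K * (512 * ((D : ℝ) * v))) := by ring
  have h9 : 0 < (K : ℝ) * r := by positivity
  linarith

/-- the entries -/
noncomputable def pnp_E {L : Type} [Field L] {n v K Lc : ℕ} (g0 : L) (g : Fin n → L)
    (J : Fin v → Fin n) (a : ℤ × (Fin n → ℤ)) (j : (Fin v → Fin K) × Fin Lc) : L :=
  (∏ i, ((a.2 (J i) : ℤ) : L) ^ (j.1 i : ℕ)) * (g0 ^ a.1 * ∏ i, g i ^ (a.2 i)) ^ (j.2 : ℕ)

lemma pnp_int {L : Type} [Field L] [NumberField L] {n v K Lc : ℕ} (g0 : L) (g : Fin n → L)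
    (J : Fin v → Fin n) (a : ℤ × (Fin n → ℤ)) (j : (Fin v → Fin K) × Fin Lc) (q : ℕ)
    (hq : IsIntegral ℤ ((q : L) * (g0 ^ a.1 * ∏ i, g i ^ (a.2 i)))) :
    IsIntegral ℤ (((q ^ Lc : ℕ) : L) * pnp_E g0 g J a j) := by
  have hZ : ∀ k : ℤ, IsIntegral ℤ ((k : ℤ) : L) := by
    intro k
    have h := isIntegral_algebraMap (R := ℤ) (A := L) (x := k)
    simpa using h
  have hlt := j.2.2
  have h1 : ((q ^ Lc : ℕ) : L) * pnp_E g0 g J a j =
      (∏ i, ((a.2 (J i) : ℤ) : L) ^ (j.1 i : ℕ)) *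
        (((q : L) * (g0 ^ a.1 * ∏ i, g i ^ (a.2 i))) ^ (j.2 : ℕ) *
          (((q : ℤ) : L)) ^ (Lc - (j.2 : ℕ))) := by
    unfold pnp_E
    have h2 : Lc = (j.2 : ℕ) + (Lc - (j.2 : ℕ)) := by omega
    rw [Nat.cast_pow, Int.cast_natCast]
    have h3 : (q : L) ^ Lc = (q : L) ^ (j.2 : ℕ) * (q : L) ^ (Lc - (j.2 : ℕ)) := by
      rw [← pow_add, ← h2]
    rw [h3, mul_pow (q : L)]
    ring
  rw [h1]
  refine IsIntegral.mul (IsIntegral.prod _ (fun i _ => (hZ _).pow _)) ?_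
  exact (hq.pow _).mul ((hZ _).pow _)

lemma pnp_conj {L : Type} [Field L] [NumberField L] {n v K Lc : ℕ} (g0 : L) (g : Fin n → L)
    (J : Fin v → Fin n) (a : ℤ × (Fin n → ℤ)) (j : (Fin v → Fin K) × Fin Lc) (U Z : ℝ)
    (hZ : 1 ≤ Z) (hU : 0 ≤ U) (ha : ∀ i, |((a.2 i : ℤ) : ℝ)| ≤ Z) (τ : L →+* ℂ)
    (hτ : ‖τ (g0 ^ a.1 * ∏ i, g i ^ (a.2 i))‖ ≤ Real.exp U) :
    ‖τ (pnp_E g0 g J a j)‖ ≤ (Z ^ K) ^ v * Real.exp U ^ Lc := by
  unfold pnp_E
  rw [map_mul, norm_mul, map_prod, norm_prod, map_pow, norm_pow]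
  have hZ0 : 0 ≤ Z := by linarith
  refine mul_le_mul ?_ ?_ (by positivity) (by positivity)
  · have h1 : ∏ i, ‖τ (((a.2 (J i) : ℤ) : L) ^ (j.1 i : ℕ))‖ ≤ ∏ _i : Fin v, Z ^ K := by
      refine Finset.prod_le_prod (fun i _ => norm_nonneg _) (fun i _ => ?_)
      rw [map_pow, norm_pow, map_intCast, Complex.norm_intCast]
      exact (pow_le_pow_left₀ (abs_nonneg _) (ha (J i)) _).trans
        (pow_le_pow_right₀ hZ (j.1 i).2.le)
    refine h1.trans (le_of_eq ?_)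
    rw [Finset.prod_const, Finset.card_univ, Fintype.card_fin]
  · refine (pow_le_pow_left₀ (norm_nonneg _) hτ _).trans ?_
    exact pow_le_pow_right₀ (Real.one_le_exp hU) j.2.2.le

theorem st_PNP (h1 : BK.ST_MINOR) (h2 : ST_PDET) (h3 : ST_PAR) (h4 : ST_DVB) : ST_PNP := by
  intro n D v hv
  refine ⟨4000 * (D + 1) * (v + 1), Nat.succ_le_of_lt (by positivity), ?_⟩
  intro L _ _ hD P p g0 g nrm U Z l T hU hZ hl hZl hPD V hV J r K hr hK hinj
  by_contra hlt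
  rw [not_le] at hlt
  obtain ⟨_, _, _, _, _, _, hb7, _, _⟩ := h4 L P hPD.pr hPD.bot
  obtain ⟨row, hrow⟩ := h1 L {a : ℤ × (Fin n → ℤ) // nrm a ≤ U ∧
      (fun i => ((a.2 i : ℤ) : ℚ)) ∈ V} ((Fin v → Fin K) × Fin (4 * r ^ v))
    (fun a j => pnp_E g0 g J a.1 j) (by
      intro x hx
      refine hinj x (fun a ha1 ha2 => ?_)
      rw [← hx ⟨a, ha1, ha2⟩]
      exact Finset.sum_congr rfl (fun j _ => mul_comm _ _))
  -- sizes
  have hr' := hr
  have hrnat : 4000 * (D + 1) * (v + 1) ≤ r := by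
    have h5 : ((4000 * (D + 1) * (v + 1) : ℕ) : ℝ) ≤ r :=
      (le_mul_of_one_le_right (Nat.cast_nonneg _) hl).trans hr
    exact_mod_cast h5
  have hr8 : 8 * v ≤ r := by
    have h5 : 8 * v ≤ 4000 * (D + 1) * (v + 1) := by nlinarith
    exact h5.trans hrnat
  obtain ⟨N, hN⟩ : ∃ N : ℕ, N = K ^ v * (4 * r ^ v) := ⟨_, rfl⟩
  obtain ⟨t, ht⟩ : ∃ t : ℕ, t = N * (K * r) / 8 := ⟨_, rfl⟩
  have ht8 : 8 * t ≤ N * (K * r) := by
    rw [ht]
    exact Nat.mul_div_le _ _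
  have hc1 : 4 * (K * r) ^ v ≤ K ^ v * (4 * r ^ v) := by
    rw [mul_pow]
    exact le_of_eq (by ring)
  have hc2 : 2 * t ≤ K ^ v * (4 * r ^ v) * T := by
    rw [← hN]
    have h5 : N * (K * r) ≤ N * T := Nat.mul_le_mul_left N hlt.le
    omega
  have hc3 : 4 * t + 4 * (K ^ v * (4 * r ^ v)) * (v * K) ≤ K ^ v * (4 * r ^ v) * (K * r) := by
    rw [← hN]
    have h5 : N * (K * (8 * v)) ≤ N * (K * r) :=
      Nat.mul_le_mul_left N (Nat.mul_le_mul_left K hr8)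
    have h6 : 2 * (4 * N * (v * K)) = N * (K * (8 * v)) := by ring
    omega
  have hdv : Dv P t (Matrix.of (fun i j => pnp_E (K := K) (Lc := 4 * r ^ v) g0 g J
      (row i).1 j)).det := by
    have h5 := h2 L P hPD.pr hPD.bot n v K (4 * r ^ v) (K * r) T t V hV J
      (fun i => (row i).1.2) (fun i => (row i).2.2) g hPD.pu (fun i => g0 ^ (row i).1.1)
      hPD.T1 (fun i => hb7 T g0 _ hPD.T1 hPD.T0) hc1 hc2 hc3
    have h6 : (Matrix.of (fun i j => pnp_E (K := K) (Lc := 4 * r ^ v) g0 g J (row i).1 j)) =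
        Matrix.of (fun i j : (Fin v → Fin K) × Fin (4 * r ^ v) =>
          (∏ k, (((row i).1.2 (J k) : ℤ) : L) ^ (j.1 k : ℕ)) *
            ((∏ k, g k ^ ((row i).1.2 k)) * g0 ^ (row i).1.1) ^ (j.2 : ℕ)) := by
      ext i j
      rw [Matrix.of_apply, Matrix.of_apply]
      unfold pnp_E
      rw [mul_comm (g0 ^ (row i).1.1)]
    rw [h6]
    exact h5
  choose q hq0 hq1 hq2 using fun i => hPD.den (row i).1
  have hU0 : 0 ≤ U := by linarith
  have hpar := h3 L P hPD.pr hPD.bot p hPD.pp hPD.pm ((Fin v → Fin K) × Fin (4 * r ^ v))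
    (Matrix.of (fun i j => pnp_E g0 g J (row i).1 j)) hrow (fun i => q i ^ (4 * r ^ v))
    (fun i => Nat.pow_pos (hq0 i))
    (fun i j => by
      rw [Matrix.of_apply]
      exact pnp_int g0 g J (row i).1 j (q i) (hq2 i))
    (Real.exp U ^ (4 * r ^ v)) ((Z ^ K) ^ v * Real.exp U ^ (4 * r ^ v))
    (one_le_pow₀ (Real.one_le_exp hU0))
    (one_le_mul_of_one_le_of_one_le (one_le_pow₀ (one_le_pow₀ hZ))
      (one_le_pow₀ (Real.one_le_exp hU0)))
    (fun τ i j => by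
      rw [Matrix.of_apply]
      exact pnp_conj g0 g J (row i).1 j U Z hZ hU0 (hPD.coo _ (row i).2.1) τ
        ((hPD.conj _ τ).trans (Real.exp_le_exp.mpr (row i).2.1)))
    (fun i => by
      rw [Nat.cast_pow]
      exact pow_le_pow_left₀ (Nat.cast_nonneg _)
        ((hq1 i).trans (Real.exp_le_exp.mpr (row i).2.1)) _)
    t hdv
  have hcard : Fintype.card ((Fin v → Fin K) × Fin (4 * r ^ v)) = N := by
    rw [hN, Fintype.card_prod, Fintype.card_fun, Fintype.card_fin, Fintype.card_fin,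
      Fintype.card_fin]
  rw [hcard] at hpar
  have hZ0 : 0 < Z := by linarith
  have hlogQ : Real.log (Real.exp U ^ (4 * r ^ v)) = (4 * (r : ℝ) ^ v) * U := by
    rw [Real.log_pow, Real.log_exp]
    push_cast
    ring
  have hlogB : Real.log ((Z ^ K) ^ v * Real.exp U ^ (4 * r ^ v)) =
      v * (K * Real.log Z) + (4 * (r : ℝ) ^ v) * U := by
    rw [Real.log_mul (by positivity) (by positivity), hlogQ, Real.log_pow, Real.log_pow]
  rw [hlogQ, hlogB] at hpar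
  have hlogZ0 : 0 ≤ Real.log Z := Real.log_nonneg hZ
  have hlogN0 : 0 ≤ Real.log (N : ℝ) := Real.log_natCast_nonneg N
  have hlogp : 1 / 2 ≤ Real.log p := by
    have h5 : (2 : ℝ) ≤ p := by exact_mod_cast hPD.pp.two_le
    have h6 : Real.log 2 ≤ Real.log p := Real.log_le_log (by norm_num) h5
    have h7 := Real.log_two_gt_d9
    linarith
  refine pnp_num D v r K N t U l (Real.log p) hv hU hl hr hK hN ht hlogp ?_
  refine hpar.trans ?_
  have hbr : (4 * (r : ℝ) ^ v) * U + Real.log N + (v * (K * Real.log Z) + (4 * (r : ℝ) ^ v) * U) ≤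
      (4 * (r : ℝ) ^ v) * U + Real.log N + (v * (K * l) + (4 * (r : ℝ) ^ v) * U) := by
    have h5 : (v : ℝ) * (K * Real.log Z) ≤ v * (K * l) :=
      mul_le_mul_of_nonneg_left (mul_le_mul_of_nonneg_left hZl (Nat.cast_nonneg K))
        (Nat.cast_nonneg v)
    linarith
  refine mul_le_mul (by exact_mod_cast hD)
    (mul_le_mul_of_nonneg_left hbr (Nat.cast_nonneg N)) ?_ (Nat.cast_nonneg D)
  refine mul_nonneg (Nat.cast_nonneg N) ?_
  positivity

end Pool.Helper99.SZ
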